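import Mathlib

/-!
# Common nets of two Platonic solids

Let `P` be a polygon which is a net of two different solids among the cube, the octahedron, the
dodecahedron and the icosahedron.  Then the two ways of folding `P` are incommensurable in a strong
sense: however the two cut surfaces are triangulated, there are two sides of `P` which are both
subdivided differently in the two foldings, and whose directions differ by an angle which is not a
rational multiple of `π` (not a multiple of `π / 3` for the octahedron and the icosahedron).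

So there is no common net for which the same subdivision of the boundary of `P` into finitely many
segments can be used for both foldings, and no common net all of whose angles are rational
multiples of `π` (multiples of `π / 3`).

Proof: let `ψ : ℂ → ℂ` be additive, `ψ (ζ x) = σ (ζ) ψ (x)` for all roots of unity `ζ`
of some order, `σ` a Galois automorphism.  The form `B (x, y) = Im (conj (ψ x) ψ (y))` replaces the
area form: the sum of `B` over the boundary of `P` is, up to terms which vanish on the sides on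
which `ψ` is real, `f n |ψ (w)|² Im σ (ζ_n)`, for a folding to `f` regular `n`-gons of circumradius
`|w|`.  For two solids with `n ≠ n'` one can choose `σ` so that the signs are different; for the
octahedron and the icosahedron `5 / 2` is not a norm from `ℚ (ζ_3)`.
-/

set_option autoImplicit false

open Complex Finset

namespace Pool.Agent.Results.MP_f2d99b_co.NoRationalCommonNet

/-- The four solids of the question. -/
inductive Solid
  | cube
  | octahedron
  | dodecahedron
  | icosahedron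

/-- The number of faces of the solid. -/
def Solid.faces : Solid → ℕ
  | .cube => 6
  | .octahedron => 8
  | .dodecahedron => 12
  | .icosahedron => 20

/-- The number of sides of each face of the solid. -/
def Solid.sides : Solid → ℕ
  | .cube => 4
  | .octahedron => 3
  | .dodecahedron => 5
  | .icosahedron => 3

/-- The corner number `k` of the standard regular `n`-gon, which has its centre at `0` and
circumradius `1`.  Its side number `k` runs (counterclockwise) from `corner n k` to
`corner n (k + 1)`. -/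
noncomputable def corner (n k : ℕ) : ℂ := Complex.exp (2 * Real.pi * I * k / n)

/-- The point `x + s (y - x)` of the segment from `x` to `y`. -/
noncomputable def pt (x y : ℂ) (s : ℝ) : ℂ := x + s * (y - x)

/-- A closed polyhedral surface made of `f` faces, each of them a regular `n`-gon: the side `k` of
the face `F` is glued to the side `(glue (F, k)).2` of the face `(glue (F, k)).1`.  The surface of
each of the four solids is one of these (with `f`, `n` as in `Solid.faces`, `Solid.sides`). -/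
structure Surface (f n : ℕ) where
  /-- which side is glued to which -/
  glue : Fin f × Fin n → Fin f × Fin n
  glue_glue : ∀ s, glue (glue s) = s
  glue_ne : ∀ s, glue s ≠ s

/-- **A net.**  Here `p 0, …, p (r - 1)` are the corners (in counterclockwise order) of the polygon
`P`, and `S` is a polyhedral surface with regular faces.  A net of `S` with polygon `P` is described
by a triangulation of the cut surface: the surface `S` is triangulated so that the cuts run along
edges of the triangulation and every triangle lies in a face, and the triangles are placed in the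
plane so that they fill `P`.  The *half-edges* are the pairs `(t, j)`: the side of the triangle `t`
from its corner `j` to its corner `j + 1`.  (Only the properties listed here are required, so
for instance `P` may even overlap itself.) -/
structure Net {f n : ℕ} (S : Surface f n) {r : ℕ} [NeZero r] (p : Fin r → ℂ) where
  /-- the number of triangles -/
  m : ℕ
  /-- the face in which the triangle lies -/
  face : Fin m → Fin f
  /-- the corners of the triangle in its face, which is drawn as the standard regular `n`-gon -/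
  loc : Fin m → Fin 3 → ℂ
  /-- the triangles are non-degenerate, their corners are in counterclockwise order -/
  ccw : ∀ t, 0 < (starRingEnd ℂ (loc t 1 - loc t 0) * (loc t 2 - loc t 0)).im
  /-- each edge of the triangulation of the surface belongs to two triangles; `mate` interchanges
  its two half-edges -/
  mate : Fin m × Fin 3 → Fin m × Fin 3
  mate_mate : ∀ h, mate (mate h) = h
  /-- `side h = some k` if the half-edge lies on the side `k` of its face, and `none` if it does
  not lie on a side of its face -/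
  side : Fin m × Fin 3 → Option (Fin n)
  /-- if the half-edge is on a side of its face, it is the part from `lo h` to `hi h` of that side -/
  lo : Fin m × Fin 3 → ℝ
  hi : Fin m × Fin 3 → ℝ
  /-- two half-edges which meet inside a face are the same segment in opposite directions -/
  inner : ∀ h, side h = none → side (mate h) = none ∧ face (mate h).1 = face h.1 ∧
    loc (mate h).1 (mate h).2 = loc h.1 (h.2 + 1) ∧
    loc (mate h).1 ((mate h).2 + 1) = loc h.1 h.2
  /-- two half-edges which meet on an edge of the solid are on sides which are glued to each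
  other, on the same part of them, in opposite directions -/
  outer : ∀ h k, side h = some k → 0 ≤ lo h ∧ lo h < hi h ∧ hi h ≤ 1 ∧
    loc h.1 h.2 = pt (corner n k) (corner n (k + 1)) (lo h) ∧
    loc h.1 (h.2 + 1) = pt (corner n k) (corner n (k + 1)) (hi h) ∧
    face (mate h).1 = (S.glue (face h.1, k)).1 ∧ side (mate h) = some (S.glue (face h.1, k)).2 ∧
    lo (mate h) = 1 - hi h ∧ hi (mate h) = 1 - lo h
  /-- each side of each face is covered by the half-edges on it -/
  full : ∀ F k, ∑ h with face h.1 = F ∧ side h = some k, (hi h - lo h) = 1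
  /-- the corners of the triangle in the plane -/
  pos : Fin m → Fin 3 → ℂ
  /-- the circumradius of the faces of the solid -/
  size : ℝ
  size_pos : 0 < size
  /-- the triangle is placed by a rotation, the scaling by the factor `size` and a shift -/
  rot : Fin m → ℂ
  norm_rot : ∀ t, ‖rot t‖ = size
  shift : Fin m → ℂ
  pos_eq : ∀ t j, pos t j = rot t * loc t j + shift t
  /-- `edge h = none` if the surface is not cut at `h`; if it is cut there, `edge h = some i` says
  that the half-edge is on the side of `P` from `p i` to `p (i + 1)` -/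
  edge : Fin m × Fin 3 → Option (Fin r)
  /-- a half-edge on a side of `P` is the part from `blo h` to `bhi h` of that side -/
  blo : Fin m × Fin 3 → ℝ
  bhi : Fin m × Fin 3 → ℝ
  /-- where the surface is not cut, the two triangles also meet in the plane -/
  uncut : ∀ h, edge h = none → edge (mate h) = none ∧
    pos (mate h).1 (mate h).2 = pos h.1 (h.2 + 1) ∧
    pos (mate h).1 ((mate h).2 + 1) = pos h.1 h.2
  /-- where the surface is cut, the triangle meets the boundary of `P` -/
  cut : ∀ h i, edge h = some i → 0 ≤ blo h ∧ blo h < bhi h ∧ bhi h ≤ 1 ∧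
    pos h.1 h.2 = pt (p i) (p (i + 1)) (blo h) ∧
    pos h.1 (h.2 + 1) = pt (p i) (p (i + 1)) (bhi h)
  /-- each side of `P` is covered by the half-edges on it -/
  cover : ∀ i, ∑ h with edge h = some i, (bhi h - blo h) = 1
  /-- the cut surface is connected -/
  connected : ∀ t t', Relation.ReflTransGen
    (fun x y => ∃ h, edge h = none ∧ h.1 = x ∧ (mate h).1 = y) t t'

/-- The subdivision of the side number `i` of the polygon (from `p i` to `p (i + 1)`) by the
triangulation: the parts `[blo, bhi] ⊆ [0, 1]` into which it is divided. -/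
def Net.cuts {f n : ℕ} {S : Surface f n} {r : ℕ} [NeZero r] {p : Fin r → ℂ} (N : Net S p)
    (i : Fin r) : Multiset (ℝ × ℝ) :=
  (univ.filter fun h => N.edge h = some i).val.map fun h => (N.blo h, N.bhi h)

/-- The angle between the lines with the directions `v` and `w` is a rational multiple `q π` of `π`;
for two solids whose faces have equally many sides (the octahedron and the icosahedron) it is even
required to be a multiple of `π / 3`. -/
def Aligned (A B : Solid) (v w : ℂ) : Prop :=
  ∃ (q : ℚ) (s : ℝ), (A.sides = B.sides → ∃ k : ℕ, q = k / 3) ∧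
    w = s * v * Complex.exp (Real.pi * I * q)

section Form

variable (B : ℂ →+ ℂ →+ ℝ)

/-- invariance -/
def Inv (u : ℂ) : Prop := ∀ x y, B (u * x) (u * y) = B x y

variable {B}

lemma antisymm (hB : ∀ x, B x x = 0) (x y : ℂ) : B x y = - B y x := by
  have h := hB (x + y)
  simp only [map_add, AddMonoidHom.add_apply, hB] at h
  linarith

lemma Inv.mul {u v : ℂ} (hu : Inv B u) (hv : Inv B v) : Inv B (u * v) := fun x y => by
  rw [mul_assoc, mul_assoc, hu, hv]

lemma Inv.neg_one : Inv B (-1) := fun x y => by simp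

lemma Inv.one : Inv B 1 := fun x y => by simp

lemma Inv.pow {u : ℂ} (hu : Inv B u) (k : ℕ) : Inv B (u ^ k) := by
  induction k with
  | zero => simpa using Inv.one
  | succ k ih => rw [pow_succ]; exact ih.mul hu

lemma Inv.inv {u : ℂ} (hu : Inv B u) (h0 : u ≠ 0) : Inv B u⁻¹ := fun x y => by
  have := hu (u⁻¹ * x) (u⁻¹ * y)
  rw [← mul_assoc, ← mul_assoc, mul_inv_cancel₀ h0, one_mul, one_mul] at this
  exact this.symm

lemma triangle_sum (hB : ∀ x, B x x = 0) (a c x y z : ℂ) :
    B (a * x + c) (a * y + c) + B (a * y + c) (a * z + c) + B (a * z + c) (a * x + c) =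
      B (a * x) (a * y) + B (a * y) (a * z) + B (a * z) (a * x) := by
  simp only [map_add, AddMonoidHom.add_apply, hB]
  rw [antisymm hB (a * x) c, antisymm hB (a * y) c, antisymm hB (a * z) c]
  ring

end Form

section Corner

lemma corner_pow {n : ℕ} (k : ℕ) : corner n k = corner n 1 ^ k := by
  unfold corner
  rw [← Complex.exp_nat_mul]
  congr 1
  push_cast
  ring

lemma corner_ne_zero (n k : ℕ) : corner n k ≠ 0 := Complex.exp_ne_zero _

lemma corner_isPrimitiveRoot {n : ℕ} (hn : n ≠ 0) : IsPrimitiveRoot (corner n 1) n := by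
  have := Complex.isPrimitiveRoot_exp n hn
  unfold corner
  simpa [mul_div_assoc] using this

lemma corner_succ_sub (n k : ℕ) :
    corner n (k + 1) - corner n k = corner n 1 ^ k * (corner n 1 - 1) := by
  rw [corner_pow (k + 1), corner_pow k]; ring

end Corner

section Main

variable {f n : ℕ} {S : Surface f n} {r : ℕ} [NeZero r] {p : Fin r → ℂ} (N : Net S p)
variable {B : ℂ →+ ℂ →+ ℝ}

lemma loc_ne (t : Fin N.m) (j : Fin 3) : N.loc t j ≠ N.loc t (j + 1) := by
  have h := N.ccw t
  intro he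
  fin_cases j
  · simp at he
    rw [he] at h
    simp at h
  · simp at he
    rw [he] at h
    have : ((starRingEnd ℂ) (N.loc t 2 - N.loc t 0) * (N.loc t 2 - N.loc t 0)).im = 0 := by
      simp [Complex.mul_im]; ring
    rw [this] at h
    exact lt_irrefl _ h
  · simp at he
    rw [he] at h
    simp at h

lemma rot_step (hn : 3 ≤ n) (hz : Inv B (corner n 1)) (h : Fin N.m × Fin 3)
    (hc : N.edge h = none) :
    ∃ u, Inv B u ∧ N.rot (N.mate h).1 = u * N.rot h.1 := by
  obtain ⟨-, e0, e1⟩ := N.uncut h hc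
  rw [N.pos_eq, N.pos_eq] at e0 e1
  have key : N.rot (N.mate h).1 * (N.loc (N.mate h).1 ((N.mate h).2 + 1) -
      N.loc (N.mate h).1 (N.mate h).2) =
      - (N.rot h.1 * (N.loc h.1 (h.2 + 1) - N.loc h.1 h.2)) := by
    linear_combination e1 - e0
  rcases hs : N.side h with _ | k
  · obtain ⟨-, -, l0, l1⟩ := N.inner h hs
    rw [l0, l1] at key
    refine ⟨1, Inv.one, ?_⟩
    have hne : N.loc h.1 (h.2 + 1) - N.loc h.1 h.2 ≠ 0 :=
      sub_ne_zero.mpr (loc_ne N h.1 h.2).symm
    apply mul_right_cancel₀ hne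
    linear_combination - key
  · obtain ⟨-, hlt, -, l0, l1, -, hsm, lm, hm⟩ := N.outer h k hs
    obtain ⟨-, -, -, m0, m1, -⟩ := N.outer (N.mate h) _ hsm
    set k' := (S.glue (N.face h.1, k)).2 with hk'
    rw [l0, l1, m0, m1, lm, hm] at key
    unfold pt at key
    have hδ : corner n 1 - 1 ≠ 0 := by
      rw [sub_ne_zero]
      exact (corner_isPrimitiveRoot (by omega)).ne_one (by omega)
    have hl : ((N.hi h : ℂ) - N.lo h) ≠ 0 := by
      rw [← ofReal_sub]
      exact_mod_cast (sub_pos.mpr hlt).ne'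
    have key2 : (N.rot (N.mate h).1 * corner n 1 ^ (k' : ℕ)) * (((N.hi h : ℂ) - N.lo h) *
        (corner n 1 - 1)) = (- N.rot h.1 * corner n 1 ^ (k : ℕ)) * (((N.hi h : ℂ) - N.lo h) *
        (corner n 1 - 1)) := by
      have c1 := corner_succ_sub n (k' : ℕ)
      have c2 := corner_succ_sub n (k : ℕ)
      push_cast at key
      rw [c1, c2] at key
      linear_combination key
    have key3 := mul_right_cancel₀ (mul_ne_zero hl hδ) key2
    have hz0 : corner n 1 ^ (k' : ℕ) ≠ 0 := pow_ne_zero _ (corner_ne_zero n 1)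
    refine ⟨-1 * corner n 1 ^ (k : ℕ) * (corner n 1 ^ (k' : ℕ))⁻¹,
      (Inv.neg_one.mul (hz.pow _)).mul ((hz.pow _).inv hz0), ?_⟩
    field_simp
    linear_combination key3

lemma rot_all (hn : 3 ≤ n) (hz : Inv B (corner n 1)) (t0 t : Fin N.m) :
    ∃ u, Inv B u ∧ N.rot t = u * N.rot t0 := by
  have h := N.connected t0 t
  induction h with
  | refl => exact ⟨1, Inv.one, by simp⟩
  | tail _ hs ih =>
    obtain ⟨u, hu, e⟩ := ih
    obtain ⟨h, hc, rfl, rfl⟩ := hs
    obtain ⟨v, hv, e'⟩ := rot_step N hn hz h hc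
    exact ⟨v * u, hv.mul hu, by rw [e', e, mul_assoc]⟩

/-- Sum over consecutive pieces of a segment. -/
lemma segment_sum (hB : ∀ x, B x x = 0) {ι : Type*} (s : Finset ι) (a b : ι → ℝ)
    (hab : ∑ i ∈ s, (b i - a i) = 1) (x y : ℂ) :
    ∑ i ∈ s, B (pt x y (a i)) (pt x y (b i)) =
      B x y + ∑ i ∈ s, B (a i * (y - x)) (b i * (y - x)) := by
  have h1 : ∀ i, B (pt x y (a i)) (pt x y (b i)) =
      B x (((b i - a i : ℝ) : ℂ) * (y - x)) + B (a i * (y - x)) (b i * (y - x)) := by
    intro i
    unfold pt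
    rw [ofReal_sub, sub_mul]
    simp only [map_add, map_sub, AddMonoidHom.add_apply, hB]
    rw [antisymm hB (a i * (y - x)) x]
    ring
  rw [Finset.sum_congr rfl fun i _ => h1 i, Finset.sum_add_distrib]
  congr 1
  rw [← map_sum, ← Finset.sum_mul, ← ofReal_sum, hab]
  simp [hB]

lemma sum_pos_eq (hB : ∀ x, B x x = 0) (hn : 3 ≤ n) (hz : Inv B (corner n 1)) (t0 : Fin N.m) :
    ∑ h : Fin N.m × Fin 3, B (N.pos h.1 h.2) (N.pos h.1 (h.2 + 1)) =
      ∑ h : Fin N.m × Fin 3, B (N.rot t0 * N.loc h.1 h.2) (N.rot t0 * N.loc h.1 (h.2 + 1)) := by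
  rw [Fintype.sum_prod_type, Fintype.sum_prod_type]
  refine Finset.sum_congr rfl fun t _ => ?_
  obtain ⟨u, hu, e⟩ := rot_all N hn hz t0 t
  simp only [Fin.sum_univ_three, N.pos_eq]
  have e1 : (1 : Fin 3) + 1 = 2 := rfl
  have e2 : (2 : Fin 3) + 1 = 0 := rfl
  rw [zero_add, e1, e2, triangle_sum hB, e]
  simp only [mul_assoc]
  rw [hu, hu, hu]

lemma sum_uncut (hB : ∀ x, B x x = 0) :
    ∑ h with N.edge h = none, B (N.pos h.1 h.2) (N.pos h.1 (h.2 + 1)) = 0 := by
  refine Finset.sum_involution (fun h _ => N.mate h) ?_ ?_ ?_ ?_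
  · intro h hh
    obtain ⟨-, e0, e1⟩ := N.uncut h (by simpa using hh)
    rw [e0, e1, antisymm hB]
    ring
  · intro h hh h0 he
    apply h0
    obtain ⟨-, e0, e1⟩ := N.uncut h (by simpa using hh)
    rw [he] at e0
    rw [← e0, hB]
  · intro h hh
    have := (N.uncut h (by simpa using hh)).1
    simpa using this
  · intro h _
    exact N.mate_mate h

lemma sum_inner (hB : ∀ x, B x x = 0) (w : ℂ) :
    ∑ h with N.side h = none, B (w * N.loc h.1 h.2) (w * N.loc h.1 (h.2 + 1)) = 0 := by
  refine Finset.sum_involution (fun h _ => N.mate h) ?_ ?_ ?_ ?_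
  · intro h hh
    obtain ⟨-, -, e0, e1⟩ := N.inner h (by simpa using hh)
    rw [e0, e1, antisymm hB]
    ring
  · intro h hh h0 he
    apply h0
    obtain ⟨-, -, e0, e1⟩ := N.inner h (by simpa using hh)
    rw [he] at e0
    rw [← e0, hB]
  · intro h hh
    have := (N.inner h (by simpa using hh)).1
    simpa using this
  · intro h _
    exact N.mate_mate h

lemma sum_edges (G : Fin N.m × Fin 3 → ℝ) :
    ∑ h, G h = ∑ h with N.edge h = none, G h + ∑ i, ∑ h with N.edge h = some i, G h := by
  rw [← Finset.sum_fiberwise univ N.edge G, Fintype.sum_option]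

lemma sum_sides (G : Fin N.m × Fin 3 → ℝ) :
    ∑ h with ¬ N.side h = none, G h =
      ∑ F, ∑ k, ∑ h with N.face h.1 = F ∧ N.side h = some k, G h := by
  rw [← Finset.sum_fiberwise (univ.filter fun h => ¬ N.side h = none)
    (fun h => (N.face h.1, N.side h)) G, Fintype.sum_prod_type]
  refine Finset.sum_congr rfl fun F _ => ?_
  rw [Fintype.sum_option]
  have h0 : ∑ h ∈ univ.filter (fun h => ¬ N.side h = none) with
      (N.face h.1, N.side h) = (F, none), G h = 0 := by
    apply Finset.sum_eq_zero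
    intro h hh
    simp only [Finset.mem_filter, Finset.mem_univ, true_and, Prod.mk.injEq] at hh
    exact absurd hh.2.2 hh.1
  rw [h0, zero_add]
  refine Finset.sum_congr rfl fun k _ => ?_
  rw [Finset.filter_filter]
  refine Finset.sum_congr ?_ fun _ _ => rfl
  ext h
  simp only [Finset.mem_filter, Finset.mem_univ, true_and, Prod.mk.injEq]
  constructor
  · rintro ⟨-, h1, h2⟩; exact ⟨h1, h2⟩
  · rintro ⟨h1, h2⟩; exact ⟨by rw [h2]; simp, h1, h2⟩

lemma sum_beta (hB : ∀ x, B x x = 0) (δ : ℂ) :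
    ∑ h with ¬ N.side h = none, B (N.lo h * δ) (N.hi h * δ) = 0 := by
  have hinv : Function.Involutive N.mate := N.mate_mate
  set G : Fin N.m × Fin 3 → ℝ := fun h => B (N.lo h * δ) (N.hi h * δ) with hG
  have e1 : ∑ h with ¬ N.side h = none, G h = ∑ h with ¬ N.side h = none, G (N.mate h) := by
    refine Finset.sum_nbij' (fun h => N.mate h) (fun h => N.mate h) ?_ ?_ ?_ ?_ ?_
    · intro h hh
      simp only [Finset.mem_filter, Finset.mem_univ, true_and] at hh ⊢
      obtain ⟨k, hk⟩ := Option.ne_none_iff_exists'.mp hh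
      rw [(N.outer h k hk).2.2.2.2.2.2.1]
      simp
    · intro h hh
      simp only [Finset.mem_filter, Finset.mem_univ, true_and] at hh ⊢
      obtain ⟨k, hk⟩ := Option.ne_none_iff_exists'.mp hh
      rw [(N.outer h k hk).2.2.2.2.2.2.1]
      simp
    · intro h _; exact N.mate_mate h
    · intro h _; exact N.mate_mate h
    · intro h _
      rw [N.mate_mate]
  have e2 : ∑ h with ¬ N.side h = none, (G h + G (N.mate h)) =
      ∑ h with ¬ N.side h = none, B δ (((N.hi h - N.lo h : ℝ) : ℂ) * δ) := by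
    refine Finset.sum_congr rfl fun h hh => ?_
    simp only [Finset.mem_filter, Finset.mem_univ, true_and] at hh
    obtain ⟨k, hk⟩ := Option.ne_none_iff_exists'.mp hh
    obtain ⟨-, -, -, -, -, -, -, hl, hh'⟩ := N.outer h k hk
    simp only [hG, hl, hh', ofReal_sub, ofReal_one, sub_mul, one_mul, map_sub,
      AddMonoidHom.sub_apply, hB]
    rw [antisymm hB (N.hi h * δ) δ, antisymm hB (N.hi h * δ) (N.lo h * δ)]
    ring
  have e3 : ∑ h with ¬ N.side h = none, B δ (((N.hi h - N.lo h : ℝ) : ℂ) * δ) = 0 := by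
    rw [sum_sides]
    refine Finset.sum_eq_zero fun F _ => Finset.sum_eq_zero fun k _ => ?_
    rw [← map_sum, ← Finset.sum_mul, ← ofReal_sum, N.full F k]
    simp [hB]
  rw [Finset.sum_add_distrib, ← e1, e3] at e2
  linarith

/-- The twisted area in the faces. -/
lemma sum_loc (hB : ∀ x, B x x = 0) (hz : Inv B (corner n 1)) (w : ℂ) :
    ∑ h : Fin N.m × Fin 3, B (w * N.loc h.1 h.2) (w * N.loc h.1 (h.2 + 1)) =
      f * n * B w (w * corner n 1) := by
  rw [← Finset.sum_filter_add_sum_filter_not univ (fun h => N.side h = none), sum_inner N hB w,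
    zero_add, sum_sides]
  set δ : ℂ := w * (corner n 1 - 1) with hδ
  have h1 : ∀ F k, ∑ h with N.face h.1 = F ∧ N.side h = some k,
      B (w * N.loc h.1 h.2) (w * N.loc h.1 (h.2 + 1)) =
      B w (w * corner n 1) + ∑ h with N.face h.1 = F ∧ N.side h = some k,
        B (N.lo h * δ) (N.hi h * δ) := by
    intro F k
    have e : ∀ h ∈ univ.filter (fun h => N.face h.1 = F ∧ N.side h = some k),
        B (w * N.loc h.1 h.2) (w * N.loc h.1 (h.2 + 1)) =
        B (pt (w * corner n k) (w * corner n (k + 1)) (N.lo h))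
          (pt (w * corner n k) (w * corner n (k + 1)) (N.hi h)) := by
      intro h hh
      simp only [Finset.mem_filter, Finset.mem_univ, true_and] at hh
      obtain ⟨-, -, -, l0, l1, -⟩ := N.outer h k hh.2
      rw [l0, l1]
      have a1 : ∀ s : ℝ, w * pt (corner n k) (corner n (k + 1)) s =
        pt (w * corner n k) (w * corner n (k + 1)) s := by
        intro s; unfold pt; ring
      rw [a1, a1]
    rw [Finset.sum_congr rfl e, segment_sum hB _ _ _ (N.full F k)]
    congr 1
    · rw [corner_pow (k + 1), corner_pow (k : ℕ), pow_succ]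
      have a1 : w * corner n 1 ^ (k : ℕ) = corner n 1 ^ (k : ℕ) * w := by ring
      have a2 : w * (corner n 1 ^ (k : ℕ) * corner n 1) =
        corner n 1 ^ (k : ℕ) * (w * corner n 1) := by ring
      rw [a1, a2]
      exact hz.pow (k : ℕ) w (w * corner n 1)
    · refine Finset.sum_congr rfl fun h _ => ?_
      have e3 : w * corner n (k + 1) - w * corner n k = corner n 1 ^ (k : ℕ) * δ := by
        rw [← mul_sub, corner_succ_sub, hδ]; ring
      have a1 : ∀ c : ℂ, c * (corner n 1 ^ (k : ℕ) * δ) = corner n 1 ^ (k : ℕ) * (c * δ) := by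
        intro c; ring
      rw [e3, a1, a1]
      exact hz.pow (k : ℕ) (N.lo h * δ) (N.hi h * δ)
  simp only [h1, Finset.sum_add_distrib]
  rw [← sum_sides N (fun h => B (N.lo h * δ) (N.hi h * δ)), sum_beta N hB δ]
  simp
  ring

/-- The twisted area computed from the boundary of the polygon and from the faces. -/
theorem main_identity (hB : ∀ x, B x x = 0) (hn : 3 ≤ n) (hz : Inv B (corner n 1))
    (t0 : Fin N.m) :
    ∑ i, (B (p i) (p (i + 1)) +
      ((N.cuts i).map fun c => B (c.1 * (p (i + 1) - p i)) (c.2 * (p (i + 1) - p i))).sum) =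
      f * n * B (N.rot t0) (N.rot t0 * corner n 1) := by
  rw [← sum_loc N hB hz, ← sum_pos_eq N hB hn hz, sum_edges, sum_uncut N hB, zero_add]
  refine Finset.sum_congr rfl fun i _ => ?_
  have e : ∀ h ∈ univ.filter (fun h => N.edge h = some i),
      B (N.pos h.1 h.2) (N.pos h.1 (h.2 + 1)) =
      B (pt (p i) (p (i + 1)) (N.blo h)) (pt (p i) (p (i + 1)) (N.bhi h)) := by
    intro h hh
    simp only [Finset.mem_filter, Finset.mem_univ, true_and] at hh
    obtain ⟨-, -, -, l0, l1⟩ := N.cut h i hh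
    rw [l0, l1]
  rw [Finset.sum_congr rfl e, segment_sum hB _ _ _ (N.cover i)]
  congr 1
  unfold Net.cuts
  rw [Multiset.map_map]
  rfl

end Main

lemma exists_hom {M a : ℕ} (hM : M ≠ 0) (ha : a.Coprime M) {ζ : ℂ} (hζ : IsPrimitiveRoot ζ M) :
    ∃ σ : IntermediateField.adjoin ℚ {ζ} →ₐ[ℚ] ℂ,
      σ (IntermediateField.AdjoinSimple.gen ℚ ζ) = ζ ^ a := by
  have hintZ : IsIntegral ℤ ζ := hζ.isIntegral (Nat.pos_of_ne_zero hM)
  have hint : IsIntegral ℚ ζ := hintZ.tower_top
  have hmin : Polynomial.aeval (ζ ^ a) (minpoly ℚ ζ) = 0 := by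
    have h1 := hζ.minpoly_eq_pow_coprime ha
    have h2 : minpoly ℚ ζ = (minpoly ℤ ζ).map (algebraMap ℤ ℚ) :=
      minpoly.isIntegrallyClosed_eq_field_fractions' ℚ hintZ
    rw [h2, Polynomial.aeval_map_algebraMap, h1]
    exact minpoly.aeval _ _
  have h3 : Polynomial.aeval (ζ ^ a)
      (minpoly ℚ (IntermediateField.adjoin.powerBasis hint).gen) = 0 := by
    have h4 : minpoly ℚ (IntermediateField.AdjoinSimple.gen ℚ ζ) = minpoly ℚ ζ :=
      IntermediateField.minpoly_gen ℚ ζ
    rw [IntermediateField.adjoin.powerBasis_gen]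
    convert hmin using 2
  exact ⟨(IntermediateField.adjoin.powerBasis hint).lift (ζ ^ a) h3,
    (IntermediateField.adjoin.powerBasis hint).lift_gen (ζ ^ a) h3⟩

lemma exists_psi0 {M a : ℕ} (hM : M ≠ 0) (ha : a.Coprime M) {ζ : ℂ} (hζ : IsPrimitiveRoot ζ M)
    {w : ℂ} (hw : w ≠ 0) :
    ∃ ψ : ℂ →+ ℂ, (∀ x, ψ (ζ * x) = ζ ^ a * ψ x) ∧ ψ w ≠ 0 := by
  let K := IntermediateField.adjoin ℚ {ζ}
  obtain ⟨σ, hσ⟩ : ∃ σ : K →ₐ[ℚ] ℂ, σ (IntermediateField.AdjoinSimple.gen ℚ ζ) = ζ ^ a :=
    exists_hom hM ha hζ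
  obtain ⟨g, hg⟩ := LinearMap.exists_leftInverse_of_injective (LinearMap.toSpanSingleton K ℂ w)
    (by
      rw [LinearMap.ker_eq_bot]
      intro x y hxy
      simp only [LinearMap.toSpanSingleton_apply] at hxy
      exact smul_left_injective K hw hxy)
  have hgw : g w = 1 := by
    have := congrArg (fun F => F 1) hg
    simpa using this
  refine ⟨(σ : K →+* ℂ).toAddMonoidHom.comp g.toAddMonoidHom, ?_, ?_⟩
  · intro x
    have h1 : ζ * x = (IntermediateField.AdjoinSimple.gen ℚ ζ : K) • x := by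
      rw [IntermediateField.smul_def]
      simp
    simp only [AddMonoidHom.comp_apply, LinearMap.toAddMonoidHom_coe]
    rw [h1, map_smul, smul_eq_mul]
    change σ (_ * _) = _ * σ _
    rw [map_mul, hσ]
  · simp [hgw]

lemma exists_psi {M a : ℕ} (hM : M ≠ 0) (ha : a.Coprime M) {ζ : ℂ} (hζ : IsPrimitiveRoot ζ M)
    {w ε : ℂ} (hw : w ≠ 0) (hε : ε ≠ 0) :
    ∃ ψ : ℂ →+ ℂ, (∀ x, ψ (ζ * x) = ζ ^ a * ψ x) ∧ (∀ s : ℝ, (ψ (s * ε)).im = 0) ∧ ψ w ≠ 0 := by
  obtain ⟨ψ, h1, h2⟩ := exists_psi0 hM ha hζ (div_ne_zero hw hε)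
  have hz0 : ζ ≠ 0 := hζ.ne_zero hM
  have hnorm : ‖ζ‖ = 1 := Complex.norm_eq_one_of_pow_eq_one hζ.pow_eq_one hM
  have hconj : starRingEnd ℂ ζ = ζ⁻¹ := by
    rw [Complex.inv_def, Complex.normSq_eq_norm_sq, hnorm]; simp
  -- the symmetrization
  have key : ∀ κ : ℂ, ∃ φ : ℂ →+ ℂ, (∀ x, φ x = κ * ψ (x / ε) +
      starRingEnd ℂ κ * starRingEnd ℂ (ψ (starRingEnd ℂ (x / ε)))) := by
    intro κ
    refine ⟨AddMonoidHom.mk' (fun x => κ * ψ (x / ε) +
      starRingEnd ℂ κ * starRingEnd ℂ (ψ (starRingEnd ℂ (x / ε)))) ?_, fun x => rfl⟩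
    intro x y
    simp only [add_div, map_add]
    ring
  have hinv : ∀ x, ψ (ζ⁻¹ * x) = (ζ ^ a)⁻¹ * ψ x := by
    intro x
    have := h1 (ζ⁻¹ * x)
    rw [← mul_assoc, mul_inv_cancel₀ hz0, one_mul] at this
    rw [this, ← mul_assoc, inv_mul_cancel₀ (pow_ne_zero _ hz0), one_mul]
  have semi : ∀ κ : ℂ, ∀ φ : ℂ →+ ℂ, (∀ x, φ x = κ * ψ (x / ε) +
      starRingEnd ℂ κ * starRingEnd ℂ (ψ (starRingEnd ℂ (x / ε)))) →
      (∀ x, φ (ζ * x) = ζ ^ a * φ x) ∧ (∀ s : ℝ, (φ (s * ε)).im = 0) := by
    intro κ φ hφ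
    refine ⟨fun x => ?_, fun s => ?_⟩
    · rw [hφ, hφ, mul_div_assoc, h1, map_mul, hconj, hinv, map_mul, map_inv₀, map_pow, hconj,
        inv_pow, inv_inv]
      ring
    · rw [hφ, mul_div_assoc, div_self hε, mul_one, Complex.conj_ofReal]
      simp
      ring
  obtain ⟨φ1, e1⟩ := key 1
  obtain ⟨φ2, e2⟩ := key I
  by_cases hc : φ1 w = 0
  · by_cases hd : φ2 w = 0
    · exfalso
      rw [e1] at hc
      rw [e2] at hd
      simp only [map_one, one_mul, Complex.conj_I] at hc hd
      apply h2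
      have : 2 * I * ψ (w / ε) = 0 := by linear_combination I * hc + hd
      simpa using this
    · exact ⟨φ2, (semi I φ2 e2).1, (semi I φ2 e2).2, hd⟩
  · exact ⟨φ1, (semi 1 φ1 e1).1, (semi 1 φ1 e1).2, hc⟩

/-- The form `Im (conj (ψ x) ψ y)`. -/
noncomputable def form (ψ : ℂ →+ ℂ) : ℂ →+ ℂ →+ ℝ :=
  AddMonoidHom.mk' (fun x => AddMonoidHom.mk' (fun y => (starRingEnd ℂ (ψ x) * ψ y).im)
    (by intro a b; simp only [map_add, mul_add, Complex.add_im]))
    (by intro a b; ext y; simp only [map_add, add_mul, Complex.add_im, AddMonoidHom.mk'_apply,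
          AddMonoidHom.add_apply])

lemma form_apply (ψ : ℂ →+ ℂ) (x y : ℂ) : form ψ x y = (starRingEnd ℂ (ψ x) * ψ y).im := rfl

lemma form_self (ψ : ℂ →+ ℂ) (x : ℂ) : form ψ x x = 0 := by
  rw [form_apply, mul_comm, Complex.mul_conj]
  simp

lemma form_inv (ψ : ℂ →+ ℂ) {u v : ℂ} (h : ∀ x, ψ (u * x) = v * ψ x) (hv : ‖v‖ = 1) :
    Inv (form ψ) u := by
  intro x y
  rw [form_apply, form_apply, h, h, map_mul]
  have : starRingEnd ℂ v * starRingEnd ℂ (ψ x) * (v * ψ y) =
      (v * starRingEnd ℂ v) * (starRingEnd ℂ (ψ x) * ψ y) := by ring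
  rw [this, Complex.mul_conj, Complex.normSq_eq_norm_sq, hv]
  simp

lemma form_turn (ψ : ℂ →+ ℂ) {u v : ℂ} (h : ∀ x, ψ (u * x) = v * ψ x) (w : ℂ) :
    form ψ w (w * u) = ‖ψ w‖ ^ 2 * v.im := by
  rw [form_apply, mul_comm w u, h]
  have : starRingEnd ℂ (ψ w) * (v * ψ w) = (ψ w * starRingEnd ℂ (ψ w)) * v := by ring
  rw [this, Complex.mul_conj, Complex.normSq_eq_norm_sq, Complex.im_ofReal_mul]

lemma psi_root {M a : ℕ} (hM : M ≠ 0) {ζ : ℂ} (hζ : IsPrimitiveRoot ζ M) {ψ : ℂ →+ ℂ}
    (h : ∀ x, ψ (ζ * x) = ζ ^ a * ψ x) {u : ℂ} (hu : u ^ M = 1) (x : ℂ) :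
    ψ (u * x) = u ^ a * ψ x := by
  haveI : NeZero M := ⟨hM⟩
  obtain ⟨j, -, rfl⟩ := hζ.eq_pow_of_pow_eq_one hu
  clear hu
  induction j with
  | zero => simp
  | succ j ih =>
    have e : ζ ^ (j + 1) * x = ζ * (ζ ^ j * x) := by ring
    rw [e, h, ih]
    ring

lemma exists_residue {n n' M : ℕ} (co : n.Coprime n') (hn' : 2 ≤ n') (hM : M ≠ 0)
    (hd : n * n' ∣ M) :
    ∃ a : ℕ, a.Coprime M ∧ a ≡ 1 [MOD n] ∧ a ≡ n' - 1 [MOD n'] := by
  haveI : NeZero M := ⟨hM⟩
  obtain ⟨a0, h1, h2⟩ := Nat.chineseRemainder co 1 (n' - 1)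
  have c1 : a0.Coprime n := by
    have := Nat.ModEq.gcd_eq h1
    rw [Nat.Coprime, this]; simp
  have c2 : a0.Coprime n' := by
    have := Nat.ModEq.gcd_eq h2
    rw [Nat.Coprime, this]
    exact (Nat.coprime_self_sub_right (by omega)).mpr (by simp) |>.symm
  have c3 : a0.Coprime (n * n') := Nat.Coprime.mul_right c1 c2
  obtain ⟨u, hu⟩ := ZMod.unitsMap_surjective hd (ZMod.unitOfCoprime a0 c3)
  refine ⟨(u : ZMod M).val, ZMod.val_coe_unit_coprime u, ?_⟩
  have h3 : (((u : ZMod M).val : ℕ) : ZMod (n * n')) = (a0 : ZMod (n * n')) := by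
    have := congrArg (fun v : (ZMod (n * n'))ˣ => (v : ZMod (n * n'))) hu
    simp only [ZMod.unitsMap_def, Units.coe_map, ZMod.coe_unitOfCoprime] at this
    rw [← this]
    simp [ZMod.natCast_val]
  have h4 : (u : ZMod M).val ≡ a0 [MOD n * n'] := (ZMod.natCast_eq_natCast_iff _ _ _).mp h3
  exact ⟨(h4.of_mul_right n').trans h1, (h4.of_mul_left n).trans h2⟩

lemma corner_im_pos {n : ℕ} (hn : 3 ≤ n) : 0 < (corner n 1).im := by
  unfold corner
  have e : (2 * Real.pi * I * (1 : ℕ) / n : ℂ) = ((2 * Real.pi / n : ℝ) : ℂ) * I := by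
    push_cast; ring
  rw [e, Complex.exp_ofReal_mul_I_im]
  have hn' : (3 : ℝ) ≤ n := by exact_mod_cast hn
  apply Real.sin_pos_of_pos_of_lt_pi
  · positivity
  · rw [div_lt_iff₀ (by linarith)]
    nlinarith [Real.pi_pos]

lemma corner_norm (n k : ℕ) : ‖corner n k‖ = 1 := by
  unfold corner
  have e : (2 * Real.pi * I * k / n : ℂ) = ((2 * Real.pi * k / n : ℝ) : ℂ) * I := by
    push_cast; ring
  rw [e, Complex.norm_exp_ofReal_mul_I]

lemma corner_pow_im_neg {n a : ℕ} (hn : 3 ≤ n) (ha : a ≡ n - 1 [MOD n]) :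
    (corner n 1 ^ a).im < 0 := by
  have h1 : corner n 1 ^ a = corner n 1 ^ (n - 1) := by
    have hpr := corner_isPrimitiveRoot (n := n) (by omega)
    rw [← Nat.mod_add_div a n, ← Nat.mod_add_div (n - 1) n, pow_add, pow_add, pow_mul, pow_mul,
      hpr.pow_eq_one, one_pow, one_pow, ha]
  have h2 : corner n 1 ^ (n - 1) = (corner n 1)⁻¹ := by
    have hpr := corner_isPrimitiveRoot (n := n) (by omega)
    have : corner n 1 ^ (n - 1) * corner n 1 = 1 := by
      rw [← pow_succ, Nat.sub_add_cancel (by omega), hpr.pow_eq_one]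
    exact eq_inv_of_mul_eq_one_left this
  rw [h1, h2, Complex.inv_im, Complex.normSq_eq_norm_sq, corner_norm]
  have := corner_im_pos hn
  simp
  linarith

lemma corner_pow_eq {n a : ℕ} (hn : 3 ≤ n) (ha : a ≡ 1 [MOD n]) :
    corner n 1 ^ a = corner n 1 := by
  have hpr := corner_isPrimitiveRoot (n := n) (by omega)
  have h1 : 1 % n = 1 := Nat.mod_eq_of_lt (by omega)
  rw [← Nat.mod_add_div a n, pow_add, pow_mul, hpr.pow_eq_one, one_pow, ha, h1]
  simp

lemma Net.nonempty {f n : ℕ} {S : Surface f n} {r : ℕ} [NeZero r] {p : Fin r → ℂ} (N : Net S p)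
    (hf : 0 < f) (hn : 0 < n) : Nonempty (Fin N.m) := by
  by_contra h
  rw [not_nonempty_iff] at h
  have := N.full ⟨0, hf⟩ ⟨0, hn⟩
  simp at this

/-- The equation between the two nets. -/
lemma compare {f n f' n' : ℕ} {S : Surface f n} {S' : Surface f' n'} {r : ℕ} [NeZero r]
    {p : Fin r → ℂ} (N : Net S p) (N' : Net S' p) (hn : 3 ≤ n) (hn' : 3 ≤ n')
    (ψ : ℂ →+ ℂ) {v v' : ℂ} (h : ∀ x, ψ (corner n 1 * x) = v * ψ x) (hv : ‖v‖ = 1)
    (h' : ∀ x, ψ (corner n' 1 * x) = v' * ψ x) (hv' : ‖v'‖ = 1)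
    (hcut : ∀ i, N.cuts i = N'.cuts i ∨
      ∃ (s : ℝ) (ε u : ℂ), p (i + 1) - p i = u * (s * ε) ∧ Inv (form ψ) u ∧
        ∀ t : ℝ, (ψ (t * ε)).im = 0)
    (t : Fin N.m) (t' : Fin N'.m) :
    f * n * (‖ψ (N.rot t)‖ ^ 2 * v.im) = f' * n' * (‖ψ (N'.rot t')‖ ^ 2 * v'.im) := by
  rw [← form_turn ψ h, ← form_turn ψ h',
    ← main_identity N (form_self ψ) hn (form_inv ψ h hv) t,
    ← main_identity N' (form_self ψ) hn' (form_inv ψ h' hv') t']
  refine Finset.sum_congr rfl fun i _ => ?_
  congr 1
  rcases hcut i with he | ⟨s, ε, u, he, hu, hr⟩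
  · rw [he]
  · have hz : ∀ c : ℝ × ℝ, form ψ (c.1 * (p (i + 1) - p i)) (c.2 * (p (i + 1) - p i)) = 0 := by
      intro c
      have a1 : ∀ d : ℝ, (d : ℂ) * (p (i + 1) - p i) = u * (((d * s : ℝ) : ℂ) * ε) := by
        intro d; rw [he]; push_cast; ring
      rw [a1, a1, hu, form_apply, Complex.mul_im, Complex.conj_re, Complex.conj_im, hr, hr]
      ring
    simp only [hz]
    simp

theorem coprime_case {f n f' n' : ℕ} {S : Surface f n} {S' : Surface f' n'} {r : ℕ} [NeZero r]
    {p : Fin r → ℂ} (N : Net S p) (N' : Net S' p) (hf : 0 < f) (hf' : 0 < f') (hn : 3 ≤ n)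
    (hn' : 3 ≤ n') (co : n.Coprime n') (ε : ℂ) (hε : ε ≠ 0) :
    ∃ i, N.cuts i ≠ N'.cuts i ∧
      ∀ (q : ℚ) (s : ℝ), p (i + 1) - p i ≠ s * ε * Complex.exp (Real.pi * I * q) := by
  by_contra hcon
  push Not at hcon
  have hall : ∀ i, N.cuts i = N'.cuts i ∨
      ∃ (q : ℚ) (s : ℝ), p (i + 1) - p i = s * ε * Complex.exp (Real.pi * I * q) := by
    intro i
    by_cases h : N.cuts i = N'.cuts i
    · exact Or.inl h
    · exact Or.inr (hcon i h)
  -- the common denominator
  have hq : ∃ q : Fin r → ℚ, ∀ i, N.cuts i = N'.cuts i ∨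
      ∃ s : ℝ, p (i + 1) - p i = s * ε * Complex.exp (Real.pi * I * q i) := by
    choose! q hq using fun i (h : N.cuts i ≠ N'.cuts i) => (hall i).resolve_left h
    refine ⟨q, fun i => ?_⟩
    by_cases h : N.cuts i = N'.cuts i
    · exact Or.inl h
    · exact Or.inr (hq i h)
  obtain ⟨q, hq⟩ := hq
  set M : ℕ := n * n' * (2 * ∏ i, (q i).den) with hMdef
  have hM : M ≠ 0 := by
    have : ∏ i, (q i).den ≠ 0 := Finset.prod_ne_zero_iff.mpr fun i _ => (q i).den_nz
    rw [hMdef]
    refine mul_ne_zero (mul_ne_zero (by omega) (by omega)) (mul_ne_zero (by omega) this)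
  obtain ⟨a, haM, ha1, ha2⟩ := exists_residue co (by omega) hM (Dvd.intro _ rfl)
  have hζ := Complex.isPrimitiveRoot_exp M hM
  set ζ := Complex.exp (2 * Real.pi * I / M) with hζdef
  obtain ⟨t⟩ := N.nonempty hf (by omega)
  obtain ⟨t'⟩ := N'.nonempty hf' (by omega)
  have hw : N.rot t ≠ 0 := by
    rw [← norm_pos_iff, N.norm_rot]; exact N.size_pos
  obtain ⟨ψ, h1, h2, h3⟩ := exists_psi hM haM hζ hw hε
  have hroot := fun {u : ℂ} (hu : u ^ M = 1) => psi_root hM hζ h1 hu
  have hcn : corner n 1 ^ M = 1 := by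
    rw [hMdef, mul_assoc, pow_mul, (corner_isPrimitiveRoot (by omega)).pow_eq_one, one_pow]
  have hcn' : corner n' 1 ^ M = 1 := by
    rw [hMdef, mul_comm n n', mul_assoc, pow_mul, (corner_isPrimitiveRoot (by omega)).pow_eq_one,
      one_pow]
  have key := compare N N' hn hn' ψ (v := corner n 1 ^ a) (v' := corner n' 1 ^ a)
    (hroot hcn) (by rw [norm_pow, corner_norm, one_pow]) (hroot hcn')
    (by rw [norm_pow, corner_norm, one_pow]) (by
      intro i
      rcases hq i with h | ⟨s, hs⟩
      · exact Or.inl h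
      · refine Or.inr ⟨s, ε, Complex.exp (Real.pi * I * q i), by rw [hs]; ring, ?_, h2⟩
        have hu : Complex.exp (Real.pi * I * q i) ^ M = 1 := by
          rw [← Complex.exp_nat_mul, Complex.exp_eq_one_iff]
          obtain ⟨c, hc⟩ : (q i).den ∣ ∏ j, (q j).den :=
            Finset.dvd_prod_of_mem _ (Finset.mem_univ i)
          refine ⟨n * n' * c * (q i).num, ?_⟩
          have hqq : ((q i : ℚ) : ℂ) * ((q i).den : ℂ) = ((q i).num : ℂ) := by
            exact_mod_cast congrArg (fun x : ℚ => (x : ℂ)) (Rat.mul_den_eq_num (q i))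
          rw [hMdef, hc]
          push_cast
          linear_combination (2 * n * n' * c * Real.pi * I : ℂ) * hqq
        exact form_inv ψ (hroot hu) (by
          rw [norm_pow]
          have : (Real.pi * I * q i : ℂ) = ((Real.pi * q i : ℝ) : ℂ) * I := by push_cast; ring
          rw [this, Complex.norm_exp_ofReal_mul_I, one_pow])) t t'
  rw [corner_pow_eq hn ha1] at key
  have p1 := corner_im_pos hn
  have p2 := corner_pow_im_neg hn' ha2
  have p3 : 0 < ‖ψ (N.rot t)‖ ^ 2 := by positivity
  have p4 : 0 ≤ ‖ψ (N'.rot t')‖ ^ 2 := by positivity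
  have q1 : (0 : ℝ) < f * n := by
    have : (0 : ℝ) < f := by exact_mod_cast hf
    have : (0 : ℝ) < n := by exact_mod_cast (by omega : 0 < n)
    positivity
  have q2 : (0 : ℝ) ≤ f' * n' := by positivity
  have l1 : 0 < (f * n : ℝ) * (‖ψ (N.rot t)‖ ^ 2 * (corner n 1).im) := by positivity
  have l2 : (f' * n' : ℝ) * (‖ψ (N'.rot t')‖ ^ 2 * (corner n' 1 ^ a).im) ≤ 0 :=
    mul_nonpos_of_nonneg_of_nonpos q2 (mul_nonpos_of_nonneg_of_nonpos p4 p2.le)
  linarith

/-- `2 (x² - x y + y²) = 5 (z² - z w + w²)` has only the trivial solution in integers. -/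
lemma descent (k : ℕ) : ∀ x y z w : ℤ, x.natAbs + y.natAbs + z.natAbs + w.natAbs ≤ k →
    2 * (x ^ 2 - x * y + y ^ 2) = 5 * (z ^ 2 - z * w + w ^ 2) → x = 0 ∧ y = 0 := by
  induction k using Nat.strong_induction_on with
  | _ k ih =>
    intro x y z w hk h
    have par : ∀ a b : ℤ, (2 : ℤ) ∣ a ^ 2 - a * b + b ^ 2 → (2 : ℤ) ∣ a ∧ (2 : ℤ) ∣ b := by
      intro a b hab
      rcases Int.even_or_odd' a with ⟨c, rfl | rfl⟩ <;> rcases Int.even_or_odd' b with ⟨d, rfl | rfl⟩
      · exact ⟨Dvd.intro _ rfl, Dvd.intro _ rfl⟩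
      · exfalso
        have : (2 : ℤ) ∣ 1 := by
          have e : (2 * c) ^ 2 - (2 * c) * (2 * d + 1) + (2 * d + 1) ^ 2 =
            2 * (2 * c ^ 2 - c * (2 * d + 1) + 2 * d ^ 2 + 2 * d) + 1 := by ring
          rw [e] at hab
          exact (Int.dvd_add_right (Dvd.intro _ rfl)).mp hab
        norm_num at this
      · exfalso
        have : (2 : ℤ) ∣ 1 := by
          have e : (2 * c + 1) ^ 2 - (2 * c + 1) * (2 * d) + (2 * d) ^ 2 =
            2 * (2 * c ^ 2 + 2 * c - (2 * c + 1) * d + 2 * d ^ 2) + 1 := by ring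
          rw [e] at hab
          exact (Int.dvd_add_right (Dvd.intro _ rfl)).mp hab
        norm_num at this
      · exfalso
        have : (2 : ℤ) ∣ 1 := by
          have e : (2 * c + 1) ^ 2 - (2 * c + 1) * (2 * d + 1) + (2 * d + 1) ^ 2 =
            2 * (2 * c ^ 2 + c + 2 * d ^ 2 + d - 2 * c * d) + 1 := by ring
          rw [e] at hab
          exact (Int.dvd_add_right (Dvd.intro _ rfl)).mp hab
        norm_num at this
    have hz : (2 : ℤ) ∣ z ^ 2 - z * w + w ^ 2 := by
      have : (2 : ℤ) ∣ 5 * (z ^ 2 - z * w + w ^ 2) := ⟨_, h.symm⟩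
      exact (Int.isCoprime_iff_gcd_eq_one.mpr (by norm_num)).dvd_of_dvd_mul_left this
    obtain ⟨⟨z', rfl⟩, ⟨w', rfl⟩⟩ := par z w hz
    have hx : (2 : ℤ) ∣ x ^ 2 - x * y + y ^ 2 := by
      refine ⟨5 * (z' ^ 2 - z' * w' + w' ^ 2), ?_⟩
      linarith
    obtain ⟨⟨x', rfl⟩, ⟨y', rfl⟩⟩ := par x y hx
    have h' : 2 * (x' ^ 2 - x' * y' + y' ^ 2) = 5 * (z' ^ 2 - z' * w' + w' ^ 2) := by
      linarith
    by_cases h0 : (2 * x').natAbs + (2 * y').natAbs + (2 * z').natAbs + (2 * w').natAbs = 0
    · omega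
    · have := ih (x'.natAbs + y'.natAbs + z'.natAbs + w'.natAbs) (by omega) x' y' z' w' le_rfl h'
      omega

lemma descent_rat (x y z w : ℚ)
    (h : 2 * (x ^ 2 - x * y + y ^ 2) = 5 * (z ^ 2 - z * w + w ^ 2)) : x = 0 ∧ y = 0 := by
  set D : ℕ := x.den * y.den * z.den * w.den with hD
  have hD0 : (D : ℚ) ≠ 0 := by
    have : D ≠ 0 := by
      rw [hD]
      exact mul_ne_zero (mul_ne_zero (mul_ne_zero x.den_nz y.den_nz) z.den_nz) w.den_nz
    exact_mod_cast this
  have hx : ∃ X : ℤ, (X : ℚ) = D * x := ⟨x.num * y.den * z.den * w.den, by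
    rw [hD]; push_cast
    linear_combination (-(y.den * z.den * w.den : ℚ)) * Rat.mul_den_eq_num x⟩
  have hy : ∃ X : ℤ, (X : ℚ) = D * y := ⟨y.num * x.den * z.den * w.den, by
    rw [hD]; push_cast
    linear_combination (-(x.den * z.den * w.den : ℚ)) * Rat.mul_den_eq_num y⟩
  have hz : ∃ X : ℤ, (X : ℚ) = D * z := ⟨z.num * x.den * y.den * w.den, by
    rw [hD]; push_cast
    linear_combination (-(x.den * y.den * w.den : ℚ)) * Rat.mul_den_eq_num z⟩
  have hw : ∃ X : ℤ, (X : ℚ) = D * w := ⟨w.num * x.den * y.den * z.den, by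
    rw [hD]; push_cast
    linear_combination (-(x.den * y.den * z.den : ℚ)) * Rat.mul_den_eq_num w⟩
  obtain ⟨X, hX⟩ := hx
  obtain ⟨Y, hY⟩ := hy
  obtain ⟨Z, hZ⟩ := hz
  obtain ⟨W, hW⟩ := hw
  have hint : 2 * (X ^ 2 - X * Y + Y ^ 2) = 5 * (Z ^ 2 - Z * W + W ^ 2) := by
    have : (2 * ((X : ℚ) ^ 2 - X * Y + Y ^ 2)) = 5 * ((Z : ℚ) ^ 2 - Z * W + W ^ 2) := by
      rw [hX, hY, hZ, hW]
      linear_combination (D : ℚ) ^ 2 * h
    exact_mod_cast this
  obtain ⟨h1, h2⟩ := descent _ X Y Z W le_rfl hint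
  rw [h1] at hX
  rw [h2] at hY
  constructor
  · have : (D : ℚ) * x = 0 := by rw [← hX]; simp
    exact (mul_eq_zero.mp this).resolve_left hD0
  · have : (D : ℚ) * y = 0 := by rw [← hY]; simp
    exact (mul_eq_zero.mp this).resolve_left hD0

lemma corner3 : corner 3 1 = ⟨-1 / 2, √3 / 2⟩ := by
  unfold corner
  have e : (2 * Real.pi * I * (1 : ℕ) / (3 : ℕ) : ℂ) = ((2 * Real.pi / 3 : ℝ) : ℂ) * I := by
    push_cast; ring
  have h1 : Real.cos (2 * Real.pi / 3) = -1 / 2 := by
    have : 2 * Real.pi / 3 = Real.pi - Real.pi / 3 := by ring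
    rw [this, Real.cos_pi_sub, Real.cos_pi_div_three]; ring
  have h2 : Real.sin (2 * Real.pi / 3) = √3 / 2 := by
    have : 2 * Real.pi / 3 = Real.pi - Real.pi / 3 := by ring
    rw [this, Real.sin_pi_sub, Real.sin_pi_div_three]
  rw [e]
  apply Complex.ext
  · rw [Complex.exp_ofReal_mul_I_re, h1]
  · rw [Complex.exp_ofReal_mul_I_im, h2]

/-- Rational coordinates with respect to `ε` and `corner 3 1 * ε`. -/
lemma exists_psi3 {w ε : ℂ} (hw : w ≠ 0) (hε : ε ≠ 0) :
    ∃ ψ : ℂ →+ ℂ, (∀ x, ψ (corner 3 1 * x) = corner 3 1 * ψ x) ∧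
      (∀ s : ℝ, (ψ (s * ε)).im = 0) ∧ (∀ x, ∃ a b : ℚ, ψ x = a + b * corner 3 1) ∧ ψ w ≠ 0 := by
  have s3 : (√3 : ℝ) ^ 2 = 3 := Real.sq_sqrt (by norm_num)
  have s30 : (√3 : ℝ) ≠ 0 := by positivity
  -- coordinates
  set ct : ℂ → ℝ := fun x => (x / ε).im * (2 / √3) with hct
  set cs : ℂ → ℝ := fun x => (x / ε).re + (x / ε).im / √3 with hcs
  have hc : ∃ c : ℝ, c ≠ 0 ∧ (c = ct w ∨ c = cs w) := by
    by_contra hcon
    push Not at hcon
    have h1 : ct w = 0 := by
      by_contra h; exact (hcon (ct w) h).1 rfl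
    have h2 : cs w = 0 := by
      by_contra h; exact (hcon (cs w) h).2 rfl
    have h3 : (w / ε).im = 0 := by
      simp only [hct] at h1
      rcases mul_eq_zero.mp h1 with h | h
      · exact h
      · exfalso; apply s30; simp at h
    have h4 : (w / ε).re = 0 := by
      simp only [hcs, h3] at h2
      simpa using h2
    exact div_ne_zero hw hε (Complex.ext h4 h3)
  obtain ⟨c, hc0, hc⟩ := hc
  obtain ⟨g, hg⟩ := LinearMap.exists_leftInverse_of_injective (LinearMap.toSpanSingleton ℚ ℝ c)
    (by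
      rw [LinearMap.ker_eq_bot]
      intro x y hxy
      simp only [LinearMap.toSpanSingleton_apply] at hxy
      exact smul_left_injective ℚ hc0 hxy)
  have hgc : g c = 1 := by
    have := congrArg (fun F => F 1) hg
    simpa using this
  have hadd : ∀ x y, ct (x + y) = ct x + ct y ∧ cs (x + y) = cs x + cs y := by
    intro x y
    simp only [hct, hcs, add_div, Complex.add_im, Complex.add_re]
    constructor <;> ring
  have him : (corner 3 1).im ≠ 0 := by rw [corner3]; simp
  refine ⟨AddMonoidHom.mk' (fun x => ((g (cs x) : ℚ) : ℂ) + ((g (ct x) : ℚ) : ℂ) * corner 3 1)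
    ?_, ?_, ?_, ?_, ?_⟩
  · intro x y
    simp only [(hadd x y).1, (hadd x y).2, map_add]
    push_cast
    ring
  · intro x
    simp only [AddMonoidHom.mk'_apply]
    have e1 : cs (corner 3 1 * x) = - ct x := by
      simp only [hcs, hct, mul_div_assoc, Complex.mul_re, Complex.mul_im, corner3]
      field_simp
      linear_combination (-(x / ε).im) * s3
    have e2 : ct (corner 3 1 * x) = cs x - ct x := by
      simp only [hcs, hct, mul_div_assoc, Complex.mul_re, Complex.mul_im, corner3]
      field_simp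
      ring
    have e3 : corner 3 1 ^ 2 = -1 - corner 3 1 := by
      rw [corner3, sq]
      apply Complex.ext
      · simp only [Complex.mul_re, Complex.sub_re, Complex.neg_re, Complex.one_re]
        linear_combination (-1 / 4) * s3
      · simp only [Complex.mul_im, Complex.sub_im, Complex.neg_im, Complex.one_im]
        ring
    rw [e1, e2, map_neg, map_sub]
    push_cast
    linear_combination (-(g (ct x) : ℂ)) * e3
  · intro s
    simp only [AddMonoidHom.mk'_apply]
    have : ct (s * ε) = 0 := by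
      simp only [hct, mul_div_assoc, div_self hε]
      simp
    rw [this]
    simp
  · intro x
    exact ⟨g (cs x), g (ct x), rfl⟩
  · simp only [AddMonoidHom.mk'_apply]
    intro h0
    have h1 := congrArg Complex.im h0
    have h2 := congrArg Complex.re h0
    simp only [Complex.add_im, Complex.mul_im, Complex.ratCast_im, Complex.ratCast_re,
      Complex.zero_im, zero_add, zero_mul, add_zero] at h1
    have h3 : ((g (ct w) : ℚ) : ℝ) = 0 := (mul_eq_zero.mp h1).resolve_right him
    have h3' : g (ct w) = 0 := by exact_mod_cast h3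
    rw [h3'] at h0
    have h4 : g (cs w) = 0 := by
      simp only [Rat.cast_zero, zero_mul, add_zero] at h0
      exact_mod_cast h0
    rcases hc with hc | hc
    · rw [← hc, hgc] at h3'; norm_num at h3'
    · rw [← hc, hgc] at h4; norm_num at h4

lemma norm_sq_rat (a b : ℚ) :
    ‖(a : ℂ) + b * corner 3 1‖ ^ 2 = ((a ^ 2 - a * b + b ^ 2 : ℚ) : ℝ) := by
  rw [← Complex.normSq_eq_norm_sq, Complex.normSq_apply, corner3]
  have s3 : (√3 : ℝ) ^ 2 = 3 := Real.sq_sqrt (by norm_num)
  simp only [Complex.add_re, Complex.mul_re, Complex.ratCast_re, Complex.ratCast_im,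
    Complex.add_im, Complex.mul_im]
  push_cast
  linear_combination ((b : ℝ) ^ 2 / 4) * s3

theorem triangle_case {S : Surface 8 3} {S' : Surface 20 3} {r : ℕ} [NeZero r]
    {p : Fin r → ℂ} (N : Net S p) (N' : Net S' p) (ε : ℂ) (hε : ε ≠ 0) :
    ∃ i, N.cuts i ≠ N'.cuts i ∧
      ∀ (k : ℕ) (s : ℝ), p (i + 1) - p i ≠ s * ε * Complex.exp (Real.pi * I * ((k / 3 : ℚ) : ℂ)) := by
  by_contra hcon
  push Not at hcon
  obtain ⟨t⟩ := N.nonempty (by norm_num) (by norm_num)
  obtain ⟨t'⟩ := N'.nonempty (by norm_num) (by norm_num)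
  have hw : N.rot t ≠ 0 := by
    rw [← norm_pos_iff, N.norm_rot]; exact N.size_pos
  obtain ⟨ψ, h1, h2, h3, h4⟩ := exists_psi3 hw hε
  have key := compare N N' le_rfl le_rfl ψ (v := corner 3 1) (v' := corner 3 1) h1
    (corner_norm 3 1) h1 (corner_norm 3 1) (by
      intro i
      by_cases h : N.cuts i = N'.cuts i
      · exact Or.inl h
      · obtain ⟨k, s, hs⟩ := hcon i h
        refine Or.inr ⟨s, ε, Complex.exp (Real.pi * I * ((k / 3 : ℚ) : ℂ)), by rw [hs]; ring,
          ?_, h2⟩
        have e : Complex.exp (Real.pi * I * ((k / 3 : ℚ) : ℂ)) =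
            (-1 * (corner 3 1 * corner 3 1)) ^ k := by
          have e1 : -1 * (corner 3 1 * corner 3 1) = Complex.exp (Real.pi * I / 3) := by
            have e2 : corner 3 1 * corner 3 1 = Complex.exp (Real.pi * I / 3 + Real.pi * I) := by
              unfold corner
              rw [← Complex.exp_add]
              congr 1
              push_cast
              ring
            rw [e2, Complex.exp_add, Complex.exp_pi_mul_I]
            ring
          rw [e1, ← Complex.exp_nat_mul]
          congr 1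
          push_cast
          ring
        rw [e]
        have i1 := form_inv ψ h1 (corner_norm 3 1)
        exact (Inv.neg_one.mul (i1.mul i1)).pow k) t t'
  have him : (corner 3 1).im ≠ 0 := (corner_im_pos le_rfl).ne'
  obtain ⟨a, b, hab⟩ := h3 (N.rot t)
  obtain ⟨c, d, hcd⟩ := h3 (N'.rot t')
  rw [hab, hcd, norm_sq_rat, norm_sq_rat] at key
  have key2 : 2 * (a ^ 2 - a * b + b ^ 2) = 5 * (c ^ 2 - c * d + d ^ 2) := by
    have : (2 : ℝ) * ((a ^ 2 - a * b + b ^ 2 : ℚ) : ℝ) = 5 * ((c ^ 2 - c * d + d ^ 2 : ℚ) : ℝ) := by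
      apply mul_right_cancel₀ him
      push_cast at key ⊢
      linarith
    exact_mod_cast this
  obtain ⟨ha, hb⟩ := descent_rat a b c d key2
  rw [ha, hb] at hab
  simp at hab
  exact h4 hab

lemma one_direction (A B : Solid) (hAB : A ≠ B) (SA : Surface A.faces A.sides)
    (SB : Surface B.faces B.sides) {r : ℕ} [NeZero r] (p : Fin r → ℂ) (NA : Net SA p)
    (NB : Net SB p) (ε : ℂ) (hε : ε ≠ 0) :
    ∃ i, NA.cuts i ≠ NB.cuts i ∧ ¬ Aligned A B ε (p (i + 1) - p i) := by
  have cop : ∀ {f n f' n' : ℕ} {S : Surface f n} {S' : Surface f' n'} (N : Net S p)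
      (N' : Net S' p), 0 < f → 0 < f' → 3 ≤ n → 3 ≤ n' → n.Coprime n' →
      ∃ i, N.cuts i ≠ N'.cuts i ∧ ¬ Aligned A B ε (p (i + 1) - p i) := by
    intro f n f' n' S S' N N' h1 h2 h3 h4 h5
    obtain ⟨i, hi, h⟩ := coprime_case N N' h1 h2 h3 h4 h5 ε hε
    exact ⟨i, hi, fun ⟨q, s, _, e⟩ => h q s e⟩
  rcases A with _ | _ | _ | _ <;> rcases B with _ | _ | _ | _
  · exact absurd rfl hAB
  · exact cop NA NB (by decide) (by decide) (by decide) (by decide) (by decide)
  · exact cop NA NB (by decide) (by decide) (by decide) (by decide) (by decide)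
  · exact cop NA NB (by decide) (by decide) (by decide) (by decide) (by decide)
  · exact cop NA NB (by decide) (by decide) (by decide) (by decide) (by decide)
  · exact absurd rfl hAB
  · exact cop NA NB (by decide) (by decide) (by decide) (by decide) (by decide)
  · obtain ⟨i, hi, h⟩ := triangle_case NA NB ε hε
    refine ⟨i, hi, ?_⟩
    rintro ⟨q, s, hk, e⟩
    obtain ⟨k, rfl⟩ := hk rfl
    exact h k s e
  · exact cop NA NB (by decide) (by decide) (by decide) (by decide) (by decide)
  · exact cop NA NB (by decide) (by decide) (by decide) (by decide) (by decide)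
  · exact absurd rfl hAB
  · exact cop NA NB (by decide) (by decide) (by decide) (by decide) (by decide)
  · exact cop NA NB (by decide) (by decide) (by decide) (by decide) (by decide)
  · obtain ⟨i, hi, h⟩ := triangle_case NB NA ε hε
    refine ⟨i, hi.symm, ?_⟩
    rintro ⟨q, s, hk, e⟩
    obtain ⟨k, rfl⟩ := hk rfl
    exact h k s e
  · exact cop NA NB (by decide) (by decide) (by decide) (by decide) (by decide)
  · exact absurd rfl hAB

/-- **Theorem.** Let `A ≠ B` be two of the four solids (cube, octahedron, dodecahedron,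
icosahedron; `SA` and `SB` are their surfaces, and in fact may be any closed surfaces glued from as
many regular polygons with as many sides), and let the polygon `P` with the corners
`p 0, …, p (r - 1)` be a net of both.  Then there are two sides `i` and `j` of `P`, both of them
subdivided differently by the two nets, such that the directions of the sides `i` and `j` are not
aligned: they do not differ by a rational multiple of `π` (for the octahedron and the icosahedron:
by a multiple of `π / 3`). -/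
theorem result (A B : Solid) (hAB : A ≠ B) (SA : Surface A.faces A.sides)
    (SB : Surface B.faces B.sides) (r : ℕ) [NeZero r] (p : Fin r → ℂ) (NA : Net SA p)
    (NB : Net SB p) :
    ∃ i j : Fin r, NA.cuts i ≠ NB.cuts i ∧ NA.cuts j ≠ NB.cuts j ∧
      ¬ Aligned A B (p (i + 1) - p i) (p (j + 1) - p j) := by
  obtain ⟨i, hi, h⟩ := one_direction A B hAB SA SB p NA NB 1 one_ne_zero
  have hne : p (i + 1) - p i ≠ 0 := by
    intro h0
    exact h ⟨0, 0, fun _ => ⟨0, by simp⟩, by rw [h0]; simp⟩
  obtain ⟨j, hj, h'⟩ := one_direction A B hAB SA SB p NA NB _ hne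
  exact ⟨i, j, hi, hj, h'⟩

end Pool.Agent.Results.MP_f2d99b_co.NoRationalCommonNet
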